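import Pool.Agent.J4H60.IF.Stm

/-! Project IF, piece J. -/

set_option autoImplicit false

namespace Pool.Agent.J4H52.IF

open Finset Pool.Agent.J4H60.IF

/-- the map -/
def phi (H : Finset V) : Finset V := H ∪ U.filter (fun X => Xᶜ ∉ H)

theorem mem_U {X : V} : X ∈ U ↔ 4 ≤ X.card := by
  simp [U]

theorem card_compl' (X : V) : Xᶜ.card + X.card = 7 := by
  rw [Finset.card_compl, Fintype.card_fin]
  have := Finset.card_le_univ X
  rw [Fintype.card_fin] at this
  omega

theorem card_U : U.card = 64 := by
  have h1 : (univ : Finset V).card = 128 := by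
    rw [Finset.card_univ]
    simp
  have h2 : (U ∪ U.image (fun X => Xᶜ)) = univ := by
    ext X
    simp only [Finset.mem_union, Finset.mem_image, Finset.mem_univ, iff_true]
    by_cases h : 4 ≤ X.card
    · exact Or.inl (mem_U.2 h)
    · right
      refine ⟨Xᶜ, mem_U.2 ?_, compl_compl X⟩
      have := card_compl' X
      omega
  have h3 : Disjoint U (U.image (fun X => Xᶜ)) := by
    rw [Finset.disjoint_left]
    intro X h1 h2
    obtain ⟨Y, hY, rfl⟩ := Finset.mem_image.1 h2
    rw [mem_U] at h1 hY
    have := card_compl' Y
    omega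
  have h4 := Finset.card_union_of_disjoint h3
  rw [h2, h1, Finset.card_image_of_injective _ compl_injective] at h4
  omega

theorem card_phi {H : Finset V} (hH : ∀ X ∈ H, X.card = 3) : (phi H).card = 64 := by
  have h1 : Disjoint H (U.filter (fun X => Xᶜ ∉ H)) := by
    rw [Finset.disjoint_left]
    intro X h1 h2
    rw [Finset.mem_filter, mem_U] at h2
    have := hH X h1
    omega
  rw [phi, Finset.card_union_of_disjoint h1]
  have h2 : (U.filter (fun X => Xᶜ ∈ H)).card + (U.filter (fun X => Xᶜ ∉ H)).card = U.card :=
    Finset.card_filter_add_card_filter_not (s := U) (fun X => Xᶜ ∈ H)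
  have h3 : U.filter (fun X => Xᶜ ∈ H) = H.image (fun X => Xᶜ) := by
    ext X
    rw [Finset.mem_filter, Finset.mem_image]
    constructor
    · rintro ⟨_, h⟩
      exact ⟨Xᶜ, h, compl_compl X⟩
    · rintro ⟨Y, hY, rfl⟩
      rw [compl_compl, mem_U]
      refine ⟨?_, hY⟩
      have := card_compl' Y
      have := hH Y hY
      omega
  rw [h3, Finset.card_image_of_injective _ compl_injective, card_U] at h2
  omega

theorem t_J : S_J := by
  intro G hG
  unfold ind cnt
  refine Finset.card_le_card_of_injOn phi ?_ ?_
  · intro H hH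
    rw [Finset.mem_coe, Finset.mem_filter, Finset.mem_powerset] at hH
    obtain ⟨hHG, hint⟩ := hH
    have hH3 : ∀ X ∈ H, X.card = 3 := fun X hX => hG X (hHG hX)
    rw [Finset.mem_coe, Finset.mem_filter, Finset.mem_powersetCard]
    refine ⟨⟨?_, card_phi hH3⟩, ?_⟩
    · intro X hX
      rw [phi, Finset.mem_union] at hX
      rw [Finset.mem_union]
      rcases hX with hX | hX
      · exact Or.inr (hHG hX)
      · exact Or.inl (Finset.mem_filter.1 hX).1
    · have key : ∀ X Y : V, X ∈ H → Y ∈ U → Yᶜ ∉ H → ¬ Disjoint X Y := by
        intro X Y hX hY hYH hd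
        have h1 : X ⊆ Yᶜ := by
          intro a ha
          rw [Finset.mem_compl]
          exact Finset.disjoint_left.1 hd ha
        have h2 : Yᶜ.card ≤ X.card := by
          rw [hH3 X hX]
          rw [mem_U] at hY
          have := card_compl' Y
          omega
        exact hYH (Finset.eq_of_subset_of_card_le h1 h2 ▸ hX)
      intro X hX Y hY hne hd
      rw [phi, Finset.mem_union, Finset.mem_filter] at hX hY
      rcases hX with hX | ⟨hX, hX'⟩
      · rcases hY with hY | ⟨hY, hY'⟩
        · exact hint X hX Y hY hne hd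
        · exact key X Y hX hY hY' hd
      · rcases hY with hY | ⟨hY, hY'⟩
        · exact key Y X hY hX hX' hd.symm
        · rw [mem_U] at hX hY
          have h1 := Finset.card_union_of_disjoint hd
          have h2 := Finset.card_le_univ (X ∪ Y)
          rw [Fintype.card_fin] at h2
          omega
  · have hback : ∀ H : Finset V, (∀ X ∈ H, X.card = 3) → (phi H).filter (fun X => X.card = 3) = H := by
      intro H hH
      ext X
      rw [Finset.mem_filter, phi, Finset.mem_union, Finset.mem_filter]
      constructor
      · rintro ⟨h | ⟨h, _⟩, h3⟩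
        · exact h
        · rw [mem_U] at h
          omega
      · intro h
        exact ⟨Or.inl h, hH X h⟩
    intro H hH H' hH' he
    rw [Finset.mem_coe, Finset.mem_filter, Finset.mem_powerset] at hH hH'
    rw [← hback H fun X hX => hG X (hH.1 hX), ← hback H' fun X hX => hG X (hH'.1 hX), he]

end Pool.Agent.J4H52.IF
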